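import Pool.Agent.W525.CB.Stm2

/-!
Project CB (helper525), task CB-AFIB: the fibration.
-/

set_option autoImplicit false

open AlgebraicGeometry CategoryTheory Order

namespace Pool.Agent.W293.CB

open Pool.Agent.H187R3 Pool.Agent.W525.CB

lemma gp_mem {X : Scheme.{0}} [IsIntegral X] {U : X.Opens} {x : X} (hx : x ∈ U) :
    genericPoint X ∈ U :=
  (genericPoint_specializes x).mem_open U.isOpen hx

lemma ffm_germ {W X : Scheme.{0}} [IsIntegral W] [IsIntegral X] (f : W ⟶ X) [IsDominant f]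
    (U : X.Opens) (hU : genericPoint X ∈ U) (b : Γ(X, U)) (hW : genericPoint W ∈ f ⁻¹ᵁ U) :
    functionFieldMap f (X.presheaf.germ U (genericPoint X) hU b) =
      W.presheaf.germ (f ⁻¹ᵁ U) (genericPoint W) hW (f.app U b) := by
  unfold functionFieldMap
  rw [CommRingCat.hom_comp, RingHom.comp_apply]
  erw [TopCat.Presheaf.germ_stalkSpecializes_apply]
  exact Scheme.Hom.germ_stalkMap_apply f U (genericPoint W) hW b

lemma key {X Z : Scheme.{0}} [IsIntegral X] [IsIntegral Z] (h : X ⟶ Z) [IsDominant h]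
    (U : Z.Opens) (hη : genericPoint X ∈ h ⁻¹ᵁ U) (s : Γ(X, h ⁻¹ᵁ U)) (V : Z.Opens)
    (hV : IsAffineOpen V) (hVg : genericPoint Z ∈ V) (W : X.Opens) (hW : IsAffineOpen W)
    (hWg : genericPoint X ∈ W) (hWV : W ≤ h ⁻¹ᵁ V) :
    ∃ (b : Γ(Z, V)) (N : ℕ) (c : Γ(X, W)), Z.presheaf.germ V (genericPoint Z) hVg b ≠ 0 ∧
      X.presheaf.germ _ (genericPoint X) hη s *
        (functionFieldMap h (Z.presheaf.germ V (genericPoint Z) hVg b)) ^ N =
        X.presheaf.germ W (genericPoint X) hWg c := by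
  have hUg : genericPoint Z ∈ U := gp_mem (x := h (genericPoint X)) hη
  obtain ⟨b, hb1, hb2⟩ := hV.exists_basicOpen_le (V := U) ⟨genericPoint Z, hUg⟩ hVg
  have hunit := (Scheme.mem_basicOpen Z b (genericPoint Z) hVg).1 hb2
  obtain ⟨b', hb'd⟩ : ∃ b' : Γ(X, W), b' = X.presheaf.map (homOfLE hWV).op (h.app V b) := ⟨_, rfl⟩
  have hb' : X.basicOpen b' = W ⊓ h ⁻¹ᵁ (Z.basicOpen b) := by
    rw [hb'd, Scheme.basicOpen_res, Scheme.preimage_basicOpen]
  have hle : X.basicOpen b' ≤ h ⁻¹ᵁ U := by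
    rw [hb']
    exact inf_le_right.trans (fun x hx => hb1 hx)
  have hgb : X.presheaf.germ W (genericPoint X) hWg b' =
      functionFieldMap h (Z.presheaf.germ V (genericPoint Z) hVg b) := by
    rw [ffm_germ h V hVg b (hWV hWg), hb'd]
    exact TopCat.Presheaf.germ_res_apply _ (homOfLE hWV) _ hWg _
  have hgen : genericPoint X ∈ X.basicOpen b' := by
    rw [Scheme.mem_basicOpen _ _ _ hWg, hgb]
    exact hunit.map _
  obtain ⟨N, c, hc⟩ := exists_eq_pow_mul_of_isAffineOpen X W hW b' (X.presheaf.map (homOfLE hle).op s)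
  refine ⟨b, N, c, hunit.ne_zero, ?_⟩
  have h1 := congrArg (X.presheaf.germ (X.basicOpen b') (genericPoint X) hgen) hc
  rw [map_mul, map_pow] at h1
  have h2 : X.presheaf.germ (X.basicOpen b') (genericPoint X) hgen
      (X.presheaf.map (homOfLE hle).op s) = X.presheaf.germ _ (genericPoint X) hη s :=
    TopCat.Presheaf.germ_res_apply _ (homOfLE hle) _ hgen _
  have h3 : ∀ r : Γ(X, W), X.presheaf.germ (X.basicOpen b') (genericPoint X) hgen
      (TopCat.Presheaf.restrictOpen r (X.basicOpen b') (X.basicOpen_le b')) =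
      X.presheaf.germ W (genericPoint X) hWg r := fun r =>
    TopCat.Presheaf.germ_res_apply _ (homOfLE (X.basicOpen_le b')) _ hgen _
  rw [h2] at h1
  rw [← hgb, ← h3 b', ← h3 c, mul_comm]
  exact h1.symm

lemma zero_ne_two (n : ℕ) : (0 : Fin (n + 3)) ≠ 2 := by
  intro h
  have h1 := congrArg Fin.val h
  rw [Fin.val_two] at h1
  exact absurd h1 (by simp)

section

variable {n : ℕ} {k E : Type} [Field k] [Field E] [Algebra k E] {x y : Fin (n + 3) → E}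

/-- index of the chart -/
def ix (σ : Equiv.Perm (Fin (n + 3))) : IX n :=
  ⟨(σ 0, σ 0, σ 1), fun h => absurd (σ.injective h) (by simp)⟩

lemma ix_eq {σ : Equiv.Perm (Fin (n + 3))} {a : IX n} (h : a.1 = (σ 0, σ 0, σ 1)) : a = ix σ :=
  Subtype.ext h

lemma FZ_sub (MZ : PM k E x) {e : E} (he : e ∈ FZ k x) : ∃ φ, MZ.κ φ = e := by
  have hle : FZ k x ≤ MZ.κ.fieldRange.toIntermediateField
      (fun c => ⟨kmap MZ.f c, MZ.scal c⟩) := by
    unfold FZ
    rw [IntermediateField.adjoin_le_iff]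
    rintro _ ⟨i, rfl⟩
    have h1 : x i / x 0 ∈ (Algebra.adjoin k (Set.range fun j => x j / x 0) : Set E) :=
      Algebra.subset_adjoin ⟨i, rfl⟩
    rw [← MZ.sec 0] at h1
    obtain ⟨_, s, hs⟩ := h1
    exact ⟨_, hs⟩
  exact hle he

lemma in_adj (MX : PM k E (xiX x y)) (MZ : PM k E x) (hCh : S_CH) (hdat : Dat x y)
    (h : MX.X ⟶ MZ.X) [IsDominant h] (hκ : ∀ φ, MX.κ (functionFieldMap h φ) = MZ.κ φ)
    (hU : ∀ σ : Equiv.Perm (Fin (n + 3)), MX.U (ix σ) ≤ h ⁻¹ᵁ MZ.U (σ 0)) (U : MZ.X.Opens)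
    (hη : genericPoint MX.X ∈ h ⁻¹ᵁ U) (s : Γ(MX.X, h ⁻¹ᵁ U)) (σ : Equiv.Perm (Fin (n + 3)))
    (hσ : σ 0 = 0) (T : Set E) (hT : ∀ i, tt x y σ i ∈ T) :
    MX.κ (MX.X.presheaf.germ _ (genericPoint MX.X) hη s) ∈ Algebra.adjoin (FZ k x) T := by
  obtain ⟨b, N, c, hb, hc⟩ := key h U hη s (MZ.U (σ 0)) (MZ.affine _) (MZ.gen _) (MX.U (ix σ))
    (MX.affine _) (MX.gen _) (hU σ)
  obtain ⟨β, hβ⟩ : ∃ β, β = MZ.κ (MZ.X.presheaf.germ (MZ.U (σ 0)) (genericPoint MZ.X)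
    (MZ.gen _) b) := ⟨_, rfl⟩
  have hβ0 : β ≠ 0 := by
    rw [hβ]
    exact (map_ne_zero _).2 hb
  have hβF : β ∈ FZ k x := by
    have h1 : β ∈ secIn MZ.κ (MZ.U (σ 0)) := ⟨MZ.gen _, b, hβ.symm⟩
    rw [MZ.sec, hσ] at h1
    exact (IntermediateField.algebra_adjoin_le_adjoin k _) h1
  have h2 := congrArg MX.κ hc
  rw [map_mul, map_pow, hκ, ← hβ] at h2
  have h3 : MX.κ (MX.X.presheaf.germ (MX.U (ix σ)) (genericPoint MX.X) (MX.gen _) c) ∈
      AX k x y σ := by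
    have h4 : MX.κ (MX.X.presheaf.germ (MX.U (ix σ)) (genericPoint MX.X) (MX.gen _) c) ∈
      secIn MX.κ (MX.U (ix σ)) := ⟨MX.gen _, c, rfl⟩
    rw [MX.sec, (hCh n k E x y hdat).1 σ (ix σ) rfl] at h4
    exact h4
  have h5 : AX k x y σ ≤ (Algebra.adjoin (FZ k x) T).restrictScalars k := by
    unfold AX
    apply Algebra.adjoin_le
    rintro z (⟨i, rfl⟩ | ⟨i, rfl⟩)
    · have h6 : ss x σ i ∈ FZ k x := by
        unfold ss FZ
        rw [hσ]
        exact IntermediateField.subset_adjoin k _ ⟨σ i, rfl⟩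
      exact (Algebra.adjoin (FZ k x) T).algebraMap_mem ⟨_, h6⟩
    · exact Algebra.subset_adjoin (hT i)
  have h7 := h5 h3
  rw [← h2] at h7
  have h8 : (β ^ N)⁻¹ ∈ FZ k x := inv_mem (pow_mem hβF N)
  have h9 : MX.κ (MX.X.presheaf.germ _ (genericPoint MX.X) hη s) =
      (β ^ N)⁻¹ * (MX.κ (MX.X.presheaf.germ _ (genericPoint MX.X) hη s) * β ^ N) := by
    have : β ^ N ≠ 0 := pow_ne_zero _ hβ0
    field_simp
  rw [h9]
  exact mul_mem ((Algebra.adjoin (FZ k x) T).algebraMap_mem ⟨_, h8⟩) h7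

end

theorem main : S_AFIB := by
  intro P n k E _ _ _ _ _ _ x y hn hE hN MX MZ
  have hdat := hE.dat
  have hch := P.ch n k E x y hdat
  obtain ⟨h, hcomp, hdom, hκ, hU⟩ := P.mor k MX.X MZ.X MX.f MZ.f E MX.κ MZ.κ
    (fun c => by rw [MX.scal, MZ.scal]) (Equiv.Perm (Fin (n + 3))) (fun σ => MX.U (ix σ))
    (fun σ => MZ.U (σ 0)) (fun σ => MX.affine _) (fun σ => MZ.affine _) (fun σ => MX.gen _)
    (fun σ => MZ.gen _)
    (fun Q => by
      obtain ⟨σ, a, ha, hQ, -⟩ := (P.cov n k E x y hn hE).1 MX Q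
      rw [ix_eq ha] at hQ
      exact ⟨σ, hQ⟩)
    (fun σ => by
      rw [MZ.sec, MX.sec, hch.1 σ (ix σ) rfl, hch.2.1 σ]
      exact hch.2.2 σ)
  refine ⟨h, hdom, ?_, hκ, ?_⟩
  · have hsurj : Surjective h := P.surj k MX.X MZ.X MX.f MZ.f h hcomp hdom
    refine ⟨hcomp, hsurj, P.push MX.X MZ.X h (hN.2 MZ) hsurj fun U hη s => ?_⟩
    have hx0 : x 0 ≠ 0 := hdat.nx 0
    have huu : ∀ i, uu x y 0 i = x 0 ^ 2 * y i := by
      intro i
      unfold uu
      rw [hE.y0]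
      ring
    have hy2 : y 2 ≠ 0 := by
      have h1 := hdat.nu 0 2 (zero_ne_two n)
      rw [huu] at h1
      exact right_ne_zero_of_mul h1
    have h1 := in_adj MX MZ P.ch hdat h hκ hU U hη s 1 rfl (Set.range y) (fun i => by
      refine ⟨i, ?_⟩
      unfold tt
      simp only [Equiv.Perm.coe_one, id_eq]
      rw [huu, huu, hE.y1]
      field_simp)
    have h2 := in_adj MX MZ P.ch hdat h hκ hU U hη s (Equiv.swap 1 2)
      (Equiv.swap_apply_of_ne_of_ne (by simp) (zero_ne_two n))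
      (Set.range fun i => y i / y 2) (fun i => by
      refine ⟨Equiv.swap 1 2 i, ?_⟩
      unfold tt
      have h0 : (Equiv.swap (1 : Fin (n + 3)) 2) 0 = 0 :=
        Equiv.swap_apply_of_ne_of_ne (by simp) (zero_ne_two n)
      rw [h0, Equiv.swap_apply_left, huu, huu]
      field_simp)
    obtain ⟨φ, hφ⟩ := FZ_sub MZ (P.fib n k E x y hn hE _ h1 h2)
    exact ⟨φ, MX.κ.injective (by rw [hκ, hφ])⟩
  · intro σ a ha
    rw [ix_eq ha]
    exact hU σ

end Pool.Agent.W293.CB
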